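import Pool.Agent.TH867.SQ.Pairs

/-!
Points of the projective line over the rationals, of all heights: three linear forms, and the
choice of three among `q` forms (helper867).
-/

set_option autoImplicit false

namespace Pool.Agent.TH867.SQ

open Finset
open Pool.Agent.TH867.QF (Fm ev va rs Rs Rs_pos rs_dvd Pt va_pos lin3 dt proportional)

variable {r : ℕ}

theorem lr_rs (L : Fm r) {i j : Fin r} (h : i ≠ j) : lr (rs L i j).natAbs ≤ Real.log (Rs L) := by
  have h1 : (rs L i j).natAbs ≠ 0 := (Int.natAbs_pos.2 (L.res i j h)).ne'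
  refine (lr_le_log h1).trans ?_
  refine Real.log_le_log (by exact_mod_cast Nat.pos_of_ne_zero h1) ?_
  exact_mod_cast Nat.le_of_dvd (Rs_pos L) (rs_dvd L h)

/-- **points of all heights, three forms** -/
theorem three_upper (L : Fm r) (ε : ℝ) (hε : 0 < ε) : ∃ D : ℝ, 0 < D ∧ ∀ X A : ℝ, 1 ≤ X → 1 ≤ A →
    ∀ F : Finset (ℤ × ℤ), (∀ P ∈ F, Pt L P ∧ ∃ a b c : Fin r, a ≠ b ∧ b ≠ c ∧ a ≠ c ∧
      lr (va L P a) + lr (va L P b) + lr (va L P c) ≤ Real.log X ∧ lr (va L P a) ≤ Real.log A) →
    (F.card : ℝ) ≤ D * X ^ ε * (A * X) ^ (1 / 2 : ℝ) := by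
  classical
  obtain ⟨D, hD, h⟩ := zpairs ε hε
  obtain ⟨R, hR⟩ : ∃ R : ℝ, R = (Rs L : ℝ) := ⟨_, rfl⟩
  have hR1 : 1 ≤ R := by rw [hR]; exact_mod_cast Rs_pos L
  have hR0 : 0 < R := by linarith
  refine ⟨((r : ℝ) ^ 3 + 1) * (2 * (D * (R ^ 3) ^ ε * (R * R ^ 3) ^ (1 / 2 : ℝ))), by positivity,
    fun X A hX hA F hF => ?_⟩
  have hX0 : 0 < X := by linarith
  have hA0 : 0 < A := by linarith
  -- the sets for given indices
  obtain ⟨G, hG⟩ : ∃ G : Fin r × Fin r × Fin r → Finset (ℤ × ℤ), G = fun σ => F.filter fun P =>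
      σ.1 ≠ σ.2.1 ∧ σ.2.1 ≠ σ.2.2 ∧ σ.1 ≠ σ.2.2 ∧
      lr (va L P σ.1) + lr (va L P σ.2.1) + lr (va L P σ.2.2) ≤ Real.log X ∧
      lr (va L P σ.1) ≤ Real.log A := ⟨_, rfl⟩
  have hcov : F ⊆ (Finset.univ : Finset (Fin r × Fin r × Fin r)).biUnion G := by
    intro P hP
    obtain ⟨-, a, b, c, h1, h2, h3, h4, h5⟩ := hF P hP
    rw [Finset.mem_biUnion]
    refine ⟨(a, b, c), Finset.mem_univ _, ?_⟩
    rw [hG]
    exact Finset.mem_filter.2 ⟨hP, h1, h2, h3, h4, h5⟩
  have hGc : ∀ σ : Fin r × Fin r × Fin r, ((G σ).card : ℝ) ≤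
      2 * (D * (X * R ^ 3) ^ ε * ((A * R) * (X * R ^ 3)) ^ (1 / 2 : ℝ)) := by
    rintro ⟨a, b, c⟩
    by_cases hab : a ≠ b
    swap
    · have : G (a, b, c) = ∅ := by
        rw [Finset.eq_empty_iff_forall_notMem]
        intro P hP
        rw [hG] at hP
        exact hab (Finset.mem_filter.1 hP).2.1
      rw [this, Finset.card_empty, Nat.cast_zero]
      positivity
    by_cases hbc : b ≠ c
    swap
    · have : G (a, b, c) = ∅ := by
        rw [Finset.eq_empty_iff_forall_notMem]
        intro P hP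
        rw [hG] at hP
        exact hbc (Finset.mem_filter.1 hP).2.2.1
      rw [this, Finset.card_empty, Nat.cast_zero]
      positivity
    by_cases hac : a ≠ c
    swap
    · have : G (a, b, c) = ∅ := by
        rw [Finset.eq_empty_iff_forall_notMem]
        intro P hP
        rw [hG] at hP
        exact hac (Finset.mem_filter.1 hP).2.2.2.1
      rw [this, Finset.card_empty, Nat.cast_zero]
      positivity
    have hmem : ∀ P ∈ G (a, b, c), Pt L P ∧
        lr (va L P a) + lr (va L P b) + lr (va L P c) ≤ Real.log X ∧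
        lr (va L P a) ≤ Real.log A := by
      intro P hP
      rw [hG] at hP
      obtain ⟨g1, -, -, -, g2, g3⟩ := Finset.mem_filter.1 hP
      exact ⟨(hF P g1).1, g2, g3⟩
    -- the pair of a point
    obtain ⟨al, hal⟩ : ∃ al : ℤ × ℤ → ℤ, al = fun P => rs L c a * ev L P b := ⟨_, rfl⟩
    obtain ⟨be, hbe⟩ : ∃ be : ℤ × ℤ → ℤ, be = fun P => rs L a b * ev L P c := ⟨_, rfl⟩
    have hsum : ∀ P, al P + be P = - rs L b c * ev L P a := by
      intro P
      rw [hal, hbe]
      exact lin3 L P a b c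
    have rca : rs L c a ≠ 0 := L.res c a hac.symm
    have rab : rs L a b ≠ 0 := L.res a b hab
    have rbc : rs L b c ≠ 0 := L.res b c hbc
    obtain ⟨φ, hφ⟩ : ∃ φ : ℤ × ℤ → ℤ × ℤ, φ = fun P =>
        (al P / (Int.gcd (al P) (be P) : ℤ), be P / (Int.gcd (al P) (be P) : ℤ)) := ⟨_, rfl⟩
    have hal0 : ∀ P, Pt L P → al P ≠ 0 := by
      intro P hP
      rw [hal]
      exact mul_ne_zero rca (hP.ne b)
    have hbe0 : ∀ P, Pt L P → be P ≠ 0 := by
      intro P hP
      rw [hbe]
      exact mul_ne_zero rab (hP.ne c)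
    have hab0 : ∀ P, Pt L P → al P + be P ≠ 0 := by
      intro P hP
      rw [hsum]
      exact mul_ne_zero (neg_ne_zero.2 rbc) (hP.ne a)
    have hg0 : ∀ P, Pt L P → (Int.gcd (al P) (be P) : ℤ) ≠ 0 := by
      intro P hP h0
      have h1 : Int.gcd (al P) (be P) = 0 := by exact_mod_cast h0
      exact hal0 P hP (Int.gcd_eq_zero_iff.1 h1).1
    have hmul1 : ∀ P, (φ P).1 * (Int.gcd (al P) (be P) : ℤ) = al P := by
      intro P
      rw [hφ]
      exact Int.ediv_mul_cancel (Int.gcd_dvd_left _ _)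
    have hmul2 : ∀ P, (φ P).2 * (Int.gcd (al P) (be P) : ℤ) = be P := by
      intro P
      rw [hφ]
      exact Int.ediv_mul_cancel (Int.gcd_dvd_right _ _)
    have hlog1 : Real.log (X * R ^ 3) = Real.log X + 3 * Real.log R := by
      rw [Real.log_mul hX0.ne' (by positivity), Real.log_pow]
      push_cast
      ring
    have hlog2 : Real.log (A * R) = Real.log A + Real.log R := Real.log_mul hA0.ne' hR0.ne'
    have key := h (X * R ^ 3) (A * R) (one_le_mul_of_one_le_of_one_le hX (one_le_pow₀ hR1))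
      (one_le_mul_of_one_le_of_one_le hA hR1) ((G (a, b, c)).image φ) (fun w hw => by
      obtain ⟨P, hP, rfl⟩ := Finset.mem_image.1 hw
      obtain ⟨hpt, h4, h5⟩ := hmem P hP
      have a0 := hal0 P hpt
      have b0 := hbe0 P hpt
      have s0 := hab0 P hpt
      have g0 := hg0 P hpt
      have m1 := hmul1 P
      have m2 := hmul2 P
      have d1 : (φ P).1 ∣ al P := ⟨_, m1.symm⟩
      have d2 : (φ P).2 ∣ be P := ⟨_, m2.symm⟩
      have d3 : (φ P).1 + (φ P).2 ∣ al P + be P :=
        ⟨(Int.gcd (al P) (be P) : ℤ), by rw [add_mul, m1, m2]⟩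
      have e1 : lr (φ P).1.natAbs ≤ lr (va L P b) + Real.log R := by
        refine (lr_dvd (Int.natAbs_ne_zero.2 a0) (Int.natAbs_dvd_natAbs.2 d1)).trans ?_
        rw [hal]
        simp only
        rw [Int.natAbs_mul]
        refine (lr_mul _ _ (Int.natAbs_ne_zero.2 rca) (va_pos hpt b).ne').trans ?_
        have := lr_rs L hac.symm
        rw [← hR] at this
        unfold va
        linarith
      have e2 : lr (φ P).2.natAbs ≤ lr (va L P c) + Real.log R := by
        refine (lr_dvd (Int.natAbs_ne_zero.2 b0) (Int.natAbs_dvd_natAbs.2 d2)).trans ?_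
        rw [hbe]
        simp only
        rw [Int.natAbs_mul]
        refine (lr_mul _ _ (Int.natAbs_ne_zero.2 rab) (va_pos hpt c).ne').trans ?_
        have := lr_rs L hab
        rw [← hR] at this
        unfold va
        linarith
      have e3 : lr ((φ P).1 + (φ P).2).natAbs ≤ lr (va L P a) + Real.log R := by
        refine (lr_dvd (Int.natAbs_ne_zero.2 s0) (Int.natAbs_dvd_natAbs.2 d3)).trans ?_
        rw [hsum, Int.natAbs_mul, Int.natAbs_neg]
        refine (lr_mul _ _ (Int.natAbs_ne_zero.2 rbc) (va_pos hpt a).ne').trans ?_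
        have := lr_rs L hbc
        rw [← hR] at this
        unfold va
        linarith
      refine ⟨?_, ?_, ?_, ?_, ?_, Or.inr (Or.inr ?_)⟩
      · rw [Int.isCoprime_iff_gcd_eq_one, hφ]
        simp only
        refine Int.gcd_ediv_gcd_ediv_gcd ?_
        have h1 : Int.gcd (al P) (be P) ≠ 0 := by
          intro h0
          exact g0 (by rw [h0]; rfl)
        exact Nat.pos_of_ne_zero h1
      · intro h0
        rw [h0, zero_mul] at m1
        exact a0 m1.symm
      · intro h0
        rw [h0, zero_mul] at m2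
        exact b0 m2.symm
      · intro h0
        apply s0
        have e4 : al P + be P = ((φ P).1 + (φ P).2) * (Int.gcd (al P) (be P) : ℤ) := by
          rw [add_mul, m1, m2]
        rw [e4, h0, zero_mul]
      · rw [hlog1]
        linarith
      · rw [hlog2]
        linarith)
    have hfib : (G (a, b, c)).card ≤ 2 * ((G (a, b, c)).image φ).card := by
      refine Finset.card_le_mul_card_image _ 2 fun w hw => ?_
      rcases ((G (a, b, c)).filter fun P => φ P = w).eq_empty_or_nonempty with he | ⟨P0, hP0⟩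
      · rw [he, Finset.card_empty]
        exact Nat.zero_le _
      · obtain ⟨q1, q2⟩ := Finset.mem_filter.1 hP0
        have hpt0 := (hmem P0 q1).1
        have hsub : ((G (a, b, c)).filter fun P => φ P = w) ⊆ {P0, (-P0.1, -P0.2)} := by
          intro P hP
          obtain ⟨q3, q4⟩ := Finset.mem_filter.1 hP
          have hpt := (hmem P q3).1
          have hd : dt P0 P = 0 := by
            have m1 := hmul1 P
            have m2 := hmul2 P
            have n1 := hmul1 P0
            have n2 := hmul2 P0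
            rw [q4] at m1 m2
            rw [q2] at n1 n2
            have e1 : al P0 * be P = al P * be P0 := by
              calc al P0 * be P = (w.1 * (Int.gcd (al P0) (be P0) : ℤ)) *
                    (w.2 * (Int.gcd (al P) (be P) : ℤ)) := by rw [n1, m2]
                _ = (w.1 * (Int.gcd (al P) (be P) : ℤ)) *
                    (w.2 * (Int.gcd (al P0) (be P0) : ℤ)) := by ring
                _ = al P * be P0 := by rw [m1, n2]
            rw [hal, hbe] at e1
            simp only at e1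
            have e2 : (rs L c a * rs L a b * rs L b c) * dt P0 P = 0 := by
              have e3 : rs L b c * dt P0 P =
                  ev L P0 b * ev L P c - ev L P b * ev L P0 c := by
                unfold rs dt ev; ring
              calc (rs L c a * rs L a b * rs L b c) * dt P0 P =
                  (rs L c a * rs L a b) * (rs L b c * dt P0 P) := by ring
                _ = (rs L c a * ev L P0 b) * (rs L a b * ev L P c) -
                    (rs L c a * ev L P b) * (rs L a b * ev L P0 c) := by rw [e3]; ring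
                _ = 0 := by rw [e1, sub_self]
            rcases mul_eq_zero.1 e2 with h0 | h0
            · exact absurd h0 (mul_ne_zero (mul_ne_zero rca rab) rbc)
            · exact h0
          obtain ⟨s, hs, s1, s2⟩ := proportional hpt0.cop hpt.cop hd
          rw [Finset.mem_insert, Finset.mem_singleton]
          rcases hs with rfl | rfl
          · left
            exact Prod.ext (by rw [s1, one_mul]) (by rw [s2, one_mul])
          · right
            exact Prod.ext (by rw [s1]; ring) (by rw [s2]; ring)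
        exact (Finset.card_le_card hsub).trans Finset.card_le_two
    have hfib' : ((G (a, b, c)).card : ℝ) ≤ 2 * (((G (a, b, c)).image φ).card : ℝ) := by
      exact_mod_cast hfib
    linarith
  have h1 : (F.card : ℝ) ≤ ∑ σ : Fin r × Fin r × Fin r, ((G σ).card : ℝ) := by
    exact_mod_cast (Finset.card_le_card hcov).trans Finset.card_biUnion_le
  have h2 := h1.trans (Finset.sum_le_sum fun σ _ => hGc σ)
  rw [Finset.sum_const, Finset.card_univ, Fintype.card_prod, Fintype.card_prod, Fintype.card_fin,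
    nsmul_eq_mul] at h2
  have h3 : 0 ≤ 2 * (D * (X * R ^ 3) ^ ε * ((A * R) * (X * R ^ 3)) ^ (1 / 2 : ℝ)) := by positivity
  have h4 : ((r * (r * r) : ℕ) : ℝ) ≤ (r : ℝ) ^ 3 + 1 := by
    push_cast
    linarith [show (r : ℝ) * (r * r) = (r : ℝ) ^ 3 by ring]
  refine (h2.trans (mul_le_mul_of_nonneg_right h4 h3)).trans (le_of_eq ?_)
  have e1 : (X * R ^ 3) ^ ε = X ^ ε * (R ^ 3) ^ ε := Real.mul_rpow hX0.le (by positivity)
  have e2 : ((A * R) * (X * R ^ 3)) ^ (1 / 2 : ℝ) =
      (A * X) ^ (1 / 2 : ℝ) * (R * R ^ 3) ^ (1 / 2 : ℝ) := by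
    rw [← Real.mul_rpow (by positivity) (by positivity)]
    congr 1
    ring
  rw [e1, e2]
  ring

/-- two light indices different from a given one -/
theorem two_light {d : ℕ} (f : Fin (d + 3) → ℝ) (i : Fin (d + 3)) :
    ∃ b c : Fin (d + 3), i ≠ b ∧ b ≠ c ∧ i ≠ c ∧
      f b + f c ≤ 2 / ((d : ℝ) + 2) * (∑ j, f j - f i) := by
  classical
  have hn1 : ((Finset.univ : Finset (Fin (d + 3))).erase i).Nonempty := by
    rw [← Finset.card_pos, Finset.card_erase_of_mem (Finset.mem_univ _), Finset.card_univ,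
      Fintype.card_fin]
    omega
  obtain ⟨b, hb, hbmin⟩ := Finset.exists_min_image _ f hn1
  have hn2 : (((Finset.univ : Finset (Fin (d + 3))).erase i).erase b).Nonempty := by
    rw [← Finset.card_pos, Finset.card_erase_of_mem hb, Finset.card_erase_of_mem (Finset.mem_univ _),
      Finset.card_univ, Fintype.card_fin]
    omega
  obtain ⟨c, hc, hcmin⟩ := Finset.exists_min_image _ f hn2
  have hbi : b ≠ i := (Finset.mem_erase.1 hb).1
  have hcb : c ≠ b := (Finset.mem_erase.1 hc).1
  have hci : c ≠ i := (Finset.mem_erase.1 (Finset.mem_erase.1 hc).2).1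
  refine ⟨b, c, hbi.symm, hcb.symm, hci.symm, ?_⟩
  have h1 : ∑ j, f j = f i + (f b + ∑ j ∈ (Finset.univ.erase i).erase b, f j) := by
    rw [Finset.add_sum_erase _ f hb, Finset.add_sum_erase _ f (Finset.mem_univ i)]
  have h2 : ((d : ℝ) + 1) * f c ≤ ∑ j ∈ (Finset.univ.erase i).erase b, f j := by
    have h3 := Finset.card_nsmul_le_sum ((Finset.univ.erase i).erase b) f (f c) hcmin
    rw [Finset.card_erase_of_mem hb, Finset.card_erase_of_mem (Finset.mem_univ _),
      Finset.card_univ, Fintype.card_fin, nsmul_eq_mul] at h3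
    have h4 : ((d + 3 - 1 - 1 : ℕ) : ℝ) = (d : ℝ) + 1 := by
      have : d + 3 - 1 - 1 = d + 1 := by omega
      rw [this]
      push_cast
      ring
    rwa [h4] at h3
  have h5 : f b ≤ f c := hbmin c (Finset.mem_erase.2 ⟨hci, Finset.mem_univ _⟩)
  have hd : (0 : ℝ) < (d : ℝ) + 2 := by positivity
  rw [div_mul_eq_mul_div, le_div_iff₀ hd, h1]
  have h6 : 0 ≤ (d : ℝ) * (f c - f b) := mul_nonneg (Nat.cast_nonneg _) (by linarith)
  nlinarith

/-- a light index -/
theorem one_light {d : ℕ} (f : Fin (d + 3) → ℝ) :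
    ∃ i : Fin (d + 3), f i ≤ (∑ j, f j) / ((d : ℝ) + 3) := by
  by_contra hcon
  push Not at hcon
  have h1 : ∑ _j : Fin (d + 3), (∑ j, f j) / ((d : ℝ) + 3) < ∑ j, f j :=
    Finset.sum_lt_sum_of_nonempty Finset.univ_nonempty fun j _ => hcon j
  rw [Finset.sum_const, Finset.card_univ, Fintype.card_fin, nsmul_eq_mul] at h1
  push_cast at h1
  have hd : (0 : ℝ) < (d : ℝ) + 3 := by positivity
  rw [mul_div_cancel₀ _ hd.ne'] at h1
  exact lt_irrefl _ h1

/-- **points of all heights, `q = d + 3` forms**: the values have radicals of product at most `X`,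
one of them has radical at most `A` -/
theorem line_upper {d : ℕ} (L : Fm (d + 3)) (ε : ℝ) (hε : 0 < ε) : ∃ D : ℝ, 0 < D ∧
    ∀ X A : ℝ, 1 ≤ X → 1 ≤ A →
    ∀ F : Finset (ℤ × ℤ), (∀ P ∈ F, Pt L P ∧ ∑ i, lr (va L P i) ≤ Real.log X ∧
      ∃ i, lr (va L P i) ≤ Real.log A) →
    (F.card : ℝ) ≤ D * X ^ ε * (X * A ^ ((d : ℝ) + 1)) ^ (1 / ((d : ℝ) + 2)) := by
  classical
  obtain ⟨D, hD, h⟩ := three_upper L ε hε
  refine ⟨D, hD, fun X A hX hA F hF => ?_⟩
  have hX0 : 0 < X := by linarith
  have hA0 : 0 < A := by linarith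
  have hd2 : (0 : ℝ) < (d : ℝ) + 2 := by positivity
  have hd3 : (0 : ℝ) < (d : ℝ) + 3 := by positivity
  have hd0 : (0 : ℝ) ≤ d := Nat.cast_nonneg d
  -- reduce to `A ≤ X ^ (1 / q)`
  obtain ⟨B, hB⟩ : ∃ B, B = min A (X ^ (1 / ((d : ℝ) + 3))) := ⟨_, rfl⟩
  have hB1 : 1 ≤ B := by rw [hB]; exact le_min hA (Real.one_le_rpow hX (by positivity))
  have hB0 : 0 < B := by linarith
  have hBA : B ≤ A := by rw [hB]; exact min_le_left _ _
  have hFB : ∀ P ∈ F, ∃ i, lr (va L P i) ≤ Real.log B := by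
    intro P hP
    obtain ⟨-, a2, i, a3⟩ := hF P hP
    rcases le_total A (X ^ (1 / ((d : ℝ) + 3))) with h1 | h1
    · exact ⟨i, by rw [hB, min_eq_left h1]; exact a3⟩
    · obtain ⟨j, hj⟩ := one_light fun i => lr (va L P i)
      refine ⟨j, ?_⟩
      rw [hB, min_eq_right h1, Real.log_rpow hX0]
      refine hj.trans ?_
      rw [one_div, ← div_eq_inv_mul]
      exact div_le_div_of_nonneg_right a2 hd3.le
  obtain ⟨Z, hZ⟩ : ∃ Z : ℝ, Z = X ^ (2 / ((d : ℝ) + 2)) * B ^ ((d : ℝ) / (d + 2)) := ⟨_, rfl⟩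
  have hZ1 : 1 ≤ Z := by
    rw [hZ]
    exact one_le_mul_of_one_le_of_one_le (Real.one_le_rpow hX (by positivity))
      (Real.one_le_rpow hB1 (by positivity))
  have hlZ : Real.log Z = 2 / ((d : ℝ) + 2) * Real.log X + (d : ℝ) / (d + 2) * Real.log B := by
    rw [hZ, Real.log_mul (by positivity) (by positivity), Real.log_rpow hX0, Real.log_rpow hB0]
  have h1 := h Z B hZ1 hB1 F (fun P hP => by
    obtain ⟨i, hi⟩ := hFB P hP
    obtain ⟨b, c, h1, h2, h3, h4⟩ := two_light (fun i => lr (va L P i)) i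
    refine ⟨(hF P hP).1, i, b, c, h1, h2, h3, ?_, hi⟩
    rw [hlZ]
    have h5 := (hF P hP).2.1
    have e1 : 2 / ((d : ℝ) + 2) * (∑ j, lr (va L P j) - lr (va L P i)) ≤
        2 / ((d : ℝ) + 2) * (Real.log X - lr (va L P i)) :=
      mul_le_mul_of_nonneg_left (by linarith) (by positivity)
    have e2 : lr (va L P i) + 2 / ((d : ℝ) + 2) * (Real.log X - lr (va L P i)) =
        2 / ((d : ℝ) + 2) * Real.log X + (d : ℝ) / (d + 2) * lr (va L P i) := by
      field_simp
      ring
    have e3 : (d : ℝ) / (d + 2) * lr (va L P i) ≤ (d : ℝ) / (d + 2) * Real.log B :=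
      mul_le_mul_of_nonneg_left hi (by positivity)
    linarith)
  have hZX : Z ≤ X := by
    have h2 : Real.log B ≤ Real.log X := by
      refine Real.log_le_log hB0 ?_
      rw [hB]
      refine (min_le_right _ _).trans ?_
      calc X ^ (1 / ((d : ℝ) + 3)) ≤ X ^ (1 : ℝ) := by
            refine Real.rpow_le_rpow_of_exponent_le hX ?_
            rw [div_le_one hd3]
            linarith
        _ = X := Real.rpow_one X
    rw [← Real.log_le_log_iff (by linarith) hX0, hlZ]
    have h3 : (d : ℝ) / (d + 2) * Real.log B ≤ (d : ℝ) / (d + 2) * Real.log X :=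
      mul_le_mul_of_nonneg_left h2 (by positivity)
    have h4 : 2 / ((d : ℝ) + 2) * Real.log X + (d : ℝ) / (d + 2) * Real.log X = Real.log X := by
      field_simp
      ring
    linarith
  refine h1.trans ?_
  have h5 : (B * Z) ^ (1 / 2 : ℝ) ≤ (X * A ^ ((d : ℝ) + 1)) ^ (1 / ((d : ℝ) + 2)) := by
    have h6 : (B * Z) ^ (1 / 2 : ℝ) = (X * B ^ ((d : ℝ) + 1)) ^ (1 / ((d : ℝ) + 2)) := by
      rw [Real.rpow_def_of_pos (by positivity), Real.rpow_def_of_pos (by positivity),
        Real.log_mul hB0.ne' (by linarith), hlZ, Real.log_mul hX0.ne' (by positivity),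
        Real.log_rpow hB0]
      congr 1
      field_simp
      ring
    rw [h6]
    refine Real.rpow_le_rpow (by positivity) ?_ (by positivity)
    exact mul_le_mul_of_nonneg_left (Real.rpow_le_rpow hB0.le hBA (by positivity)) hX0.le
  refine mul_le_mul ?_ h5 (by positivity) (by positivity)
  exact mul_le_mul_of_nonneg_left (Real.rpow_le_rpow (by linarith) hZX hε.le) hD.le

/-- **points of all heights, `q = d + 3` forms**: the exponent `2 / q` -/
theorem line_all {d : ℕ} (L : Fm (d + 3)) (ε : ℝ) (hε : 0 < ε) : ∃ D : ℝ, 0 < D ∧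
    ∀ X : ℝ, 1 ≤ X →
    ∀ F : Finset (ℤ × ℤ), (∀ P ∈ F, Pt L P ∧ ∑ i, lr (va L P i) ≤ Real.log X) →
    (F.card : ℝ) ≤ D * X ^ (2 / ((d : ℝ) + 3) + ε) := by
  classical
  obtain ⟨D, hD, h⟩ := line_upper L ε hε
  refine ⟨D, hD, fun X hX F hF => ?_⟩
  have hX0 : 0 < X := by linarith
  have hd2 : (0 : ℝ) < (d : ℝ) + 2 := by positivity
  have hd3 : (0 : ℝ) < (d : ℝ) + 3 := by positivity
  have h1 := h X (X ^ (1 / ((d : ℝ) + 3))) hX (Real.one_le_rpow hX (by positivity)) F (fun P hP => by
    refine ⟨(hF P hP).1, (hF P hP).2, ?_⟩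
    obtain ⟨j, hj⟩ := one_light fun i => lr (va L P i)
    refine ⟨j, ?_⟩
    rw [Real.log_rpow hX0]
    refine hj.trans ?_
    rw [one_div, ← div_eq_inv_mul]
    exact div_le_div_of_nonneg_right (hF P hP).2 hd3.le)
  refine h1.trans (le_of_eq ?_)
  rw [mul_assoc]
  congr 1
  rw [← Real.rpow_mul hX0.le]
  have e1 : X * X ^ (1 / ((d : ℝ) + 3) * ((d : ℝ) + 1)) =
      X ^ (1 + 1 / ((d : ℝ) + 3) * ((d : ℝ) + 1)) := by
    rw [Real.rpow_add hX0, Real.rpow_one]
  rw [e1, ← Real.rpow_mul hX0.le, ← Real.rpow_add hX0]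
  congr 1
  field_simp
  ring

end Pool.Agent.TH867.SQ
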