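import Pool.Agent.TH867.SB.Ref
import Pool.Agent.TH867.QF.Basic

/-!
Pairs of coprime integers `(u, v)` with `u v (u + v) ≠ 0`, of all heights, counted by the radicals of
`u`, `v`, `u + v` (helper867).
-/

set_option autoImplicit false

namespace Pool.Agent.TH867.SQ

open Finset
open Pool.Agent.TH867.SR (Tr rr)

/-- the logarithm of the radical -/
noncomputable def lr (n : ℕ) : ℝ := ∑ p ∈ n.primeFactors, Real.log (p : ℝ)

theorem log_nn (n : ℕ) : 0 ≤ Real.log (n : ℝ) := Real.log_natCast_nonneg n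

theorem lr_nonneg (n : ℕ) : 0 ≤ lr n := Finset.sum_nonneg fun p _ => log_nn p

theorem lr_dvd {m n : ℕ} (hn : n ≠ 0) (h : m ∣ n) : lr m ≤ lr n :=
  Finset.sum_le_sum_of_subset_of_nonneg (Nat.primeFactors_mono h hn) fun p _ _ => log_nn p

theorem lr_mul (m n : ℕ) (hm : m ≠ 0) (hn : n ≠ 0) : lr (m * n) ≤ lr m + lr n := by
  unfold lr
  rw [Nat.primeFactors_mul hm hn, ← Finset.sum_union_inter]
  have : 0 ≤ ∑ p ∈ m.primeFactors ∩ n.primeFactors, Real.log (p : ℝ) :=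
    Finset.sum_nonneg fun p _ => log_nn p
  linarith

theorem lr_le_log {n : ℕ} (hn : n ≠ 0) : lr n ≤ Real.log n := by
  unfold lr
  rw [← Pool.Agent.TH867.SR.log_prod_primes fun q hq => Nat.prime_of_mem_primeFactors hq]
  refine Real.log_le_log ?_ ?_
  · exact_mod_cast Finset.prod_pos fun q hq => (Nat.prime_of_mem_primeFactors hq).pos
  · exact_mod_cast Nat.le_of_dvd (Nat.pos_of_ne_zero hn) (Nat.prod_primeFactors_dvd _)

theorem rr_eq (t : Fin 3 → ℕ) (i : Fin 3) : rr t i = lr (t i) := rfl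

/-- the members of a triple, in a cyclic or other order -/
structure Srt (t : Fin 3 → ℕ) (x y z : ℕ) : Prop where
  tr : Tr t
  ix : ∃ i, x = t i
  iy : ∃ i, y = t i
  iz : ∃ i, z = t i
  sm : ∀ g : ℕ → ℝ, g (t 0) + g (t 1) + g (t 2) = g x + g y + g z

/-- sort a triple of natural numbers with `x + y = z` -/
theorem srt_add {x y z : ℕ} (hx : x ≠ 0) (hy : y ≠ 0) (h : x + y = z) (hc : Nat.Coprime x y) :
    ∃ t, Srt t x y z := by
  rcases le_total x y with hle | hle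
  · refine ⟨![x, y, z], ⟨Nat.pos_of_ne_zero hx, hle, hc, h⟩, ⟨0, rfl⟩, ⟨1, rfl⟩, ⟨2, rfl⟩,
      fun g => rfl⟩
  · refine ⟨![y, x, z], ⟨Nat.pos_of_ne_zero hy, hle, hc.symm, by
      show y + x = z
      omega⟩, ⟨1, rfl⟩, ⟨0, rfl⟩, ⟨2, rfl⟩, fun g => ?_⟩
    show g y + g x + g z = g x + g y + g z
    ring

theorem Srt.perm1 {t : Fin 3 → ℕ} {x y z : ℕ} (h : Srt t x y z) : Srt t y z x :=
  ⟨h.tr, h.iy, h.iz, h.ix, fun g => by rw [h.sm]; ring⟩

/-- the triple of absolute values of `u`, `v`, `u + v` -/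
theorem srt_int {u v : ℤ} (hc : IsCoprime u v) (hu : u ≠ 0) (hv : v ≠ 0) (hs : u + v ≠ 0) :
    ∃ t, Srt t u.natAbs v.natAbs (u + v).natAbs := by
  have hcn : Nat.Coprime u.natAbs v.natAbs := Int.isCoprime_iff_gcd_eq_one.1 hc
  have hc2 : Nat.Coprime v.natAbs (u + v).natAbs := by
    have : IsCoprime v (u + v) := by
      have h1 : IsCoprime v u := hc.symm
      have := (IsCoprime.add_mul_left_right_iff (x := v) (y := u) (z := 1)).2 h1
      rwa [mul_one] at this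
    exact Int.isCoprime_iff_gcd_eq_one.1 this
  have hc3 : Nat.Coprime (u + v).natAbs u.natAbs := by
    have : IsCoprime u (u + v) := by
      have := (IsCoprime.add_mul_left_right_iff (x := u) (y := v) (z := 1)).2 hc
      rwa [mul_one, add_comm] at this
    exact (Int.isCoprime_iff_gcd_eq_one.1 this.symm)
  have hu' : u.natAbs ≠ 0 := Int.natAbs_ne_zero.2 hu
  have hv' : v.natAbs ≠ 0 := Int.natAbs_ne_zero.2 hv
  have hs' : (u + v).natAbs ≠ 0 := Int.natAbs_ne_zero.2 hs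
  have hcase : u.natAbs + v.natAbs = (u + v).natAbs ∨ v.natAbs + (u + v).natAbs = u.natAbs ∨
      (u + v).natAbs + u.natAbs = v.natAbs := by omega
  rcases hcase with h | h | h
  · exact srt_add hu' hv' h hcn
  · obtain ⟨t, ht⟩ := srt_add hv' hs' h hc2
    exact ⟨t, ht.perm1.perm1⟩
  · obtain ⟨t, ht⟩ := srt_add hs' hu' h hc3
    exact ⟨t, ht.perm1⟩

/-- **pairs of coprime integers of all heights** -/
theorem zpairs (ε : ℝ) (hε : 0 < ε) : ∃ D : ℝ, 0 < D ∧ ∀ X A : ℝ, 1 ≤ X → 1 ≤ A →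
    ∀ F : Finset (ℤ × ℤ), (∀ w ∈ F, IsCoprime w.1 w.2 ∧ w.1 ≠ 0 ∧ w.2 ≠ 0 ∧ w.1 + w.2 ≠ 0 ∧
      lr w.1.natAbs + lr w.2.natAbs + lr (w.1 + w.2).natAbs ≤ Real.log X ∧
      (lr w.1.natAbs ≤ Real.log A ∨ lr w.2.natAbs ≤ Real.log A ∨
        lr (w.1 + w.2).natAbs ≤ Real.log A)) →
    (F.card : ℝ) ≤ D * X ^ ε * (A * X) ^ (1 / 2 : ℝ) := by
  classical
  obtain ⟨D, hD, h⟩ := Pool.Agent.TH867.SB.ref_all ε hε
  refine ⟨36 * D, by positivity, fun X A hX hA F hF => ?_⟩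
  have hex : ∀ w ∈ F, ∃ t, Srt t w.1.natAbs w.2.natAbs (w.1 + w.2).natAbs := by
    intro w hw
    obtain ⟨h1, h2, h3, h4, -, -⟩ := hF w hw
    exact srt_int h1 h2 h3 h4
  choose! f hf using hex
  have h1 := h X A hX hA (F.image f) (fun t ht => by
    obtain ⟨w, hw, rfl⟩ := Finset.mem_image.1 ht
    obtain ⟨-, -, -, -, h5, h6⟩ := hF w hw
    have hs := hf w hw
    refine ⟨hs.tr, ?_, ?_⟩
    · rw [rr_eq, rr_eq, rr_eq, hs.sm]
      exact h5
    · rcases h6 with h6 | h6 | h6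
      · obtain ⟨i, hi⟩ := hs.ix
        exact ⟨i, by rw [rr_eq, ← hi]; exact h6⟩
      · obtain ⟨i, hi⟩ := hs.iy
        exact ⟨i, by rw [rr_eq, ← hi]; exact h6⟩
      · obtain ⟨i, hi⟩ := hs.iz
        exact ⟨i, by rw [rr_eq, ← hi]; exact h6⟩)
  have h2 : F.card ≤ 36 * (F.image f).card := by
    refine Finset.card_le_mul_card_image F 36 fun t ht => ?_
    have hsub : F.filter (fun w => f w = t) ⊆
        (Finset.univ : Finset (Fin 3 × Fin 3 × Bool × Bool)).image (fun c =>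
          ((if c.2.2.1 then (t c.1 : ℤ) else -(t c.1 : ℤ)),
            (if c.2.2.2 then (t c.2.1 : ℤ) else -(t c.2.1 : ℤ)))) := by
      intro w hw
      obtain ⟨g1, g2⟩ := Finset.mem_filter.1 hw
      have hs := hf w g1
      rw [g2] at hs
      obtain ⟨i, hi⟩ := hs.ix
      obtain ⟨j, hj⟩ := hs.iy
      have e1 : ∃ b : Bool, w.1 = if b then (t i : ℤ) else -(t i : ℤ) := by
        rcases Int.natAbs_eq w.1 with h | h
        · exact ⟨true, by rw [if_pos rfl, ← hi]; exact h⟩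
        · exact ⟨false, by rw [if_neg (by decide), ← hi]; exact h⟩
      have e2 : ∃ b : Bool, w.2 = if b then (t j : ℤ) else -(t j : ℤ) := by
        rcases Int.natAbs_eq w.2 with h | h
        · exact ⟨true, by rw [if_pos rfl, ← hj]; exact h⟩
        · exact ⟨false, by rw [if_neg (by decide), ← hj]; exact h⟩
      obtain ⟨b, hb⟩ := e1
      obtain ⟨b', hb'⟩ := e2
      rw [Finset.mem_image]
      exact ⟨(i, j, b, b'), Finset.mem_univ _, Prod.ext hb.symm hb'.symm⟩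
    refine (Finset.card_le_card hsub).trans (Finset.card_image_le.trans (le_of_eq ?_))
    rw [Finset.card_univ]
    rfl
  have h3 : (F.card : ℝ) ≤ 36 * ((F.image f).card : ℝ) := by exact_mod_cast h2
  calc (F.card : ℝ) ≤ 36 * ((F.image f).card : ℝ) := h3
    _ ≤ 36 * (D * X ^ ε * (A * X) ^ (1 / 2 : ℝ)) := by linarith
    _ = _ := by ring

end Pool.Agent.TH867.SQ
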